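import Mathlib
import Pool.Agent.Work.MP_4c4335_nt.Defs
import Pool.Agent.Work.MP_4c4335_nt_helper98.Final

/-!
# An exponential lower bound for `R_DPV(n, θ)` at almost every point of the circle
-/

namespace Pool.Agent.Results.MP_4c4335_nt.ExponentialDPV

open Pool.Agent.Work.MP_4c4335_nt MeasureTheory

/-- For Lebesgue-almost every `θ ∈ [0, 2π)` there is a constant `c > 0` such that
`R_DPV(n, θ) ≥ exp (c n)` for all sufficiently large `n`. -/
theorem result : ∀ᵐ θ ∂(volume.restrict (Set.Ico (0:ℝ) (2 * Real.pi))), ∃ c : ℝ, 0 < c ∧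
    ∀ᶠ n : ℕ in Filter.atTop, Real.exp (c * n) ≤ RDPV n θ :=
  Pool.Agent.Work.MP_4c4335_nt_helper98.final

end Pool.Agent.Results.MP_4c4335_nt.ExponentialDPV
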